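import Pool.Agent.helper62.VN.SpecG
import Pool.Agent.helper62.VQE.PZE

/-! # Row vne:GCP (MP_07c750_an): close potentials have close flow data -/

set_option autoImplicit false

open scoped MatrixGroups ContDiff Topology UpperHalfPlane
open UpperHalfPlane MeasureTheory Filter Set

namespace Pool.Agent.VNE

open Pool.Agent.RS Pool.Agent.VQE
open Pool.Agent.VQ (Dyn rho kap n1 n2 hess Ug TF)
open Pool.Agent.VN (PotN OKN Kg)

noncomputable section

theorem GCP_cdi0 : (VQ.cdi 0 : ℍ) = I := by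
  unfold VQ.cdi
  have h1 : Complex.I * (2 + 0) / (2 - 0) = ((I : ℍ) : ℂ) := by
    show _ = Complex.I
    norm_num
  rw [h1, ofComplex_apply]

theorem GCP_Ug0 (U : ℍ → ℝ) (g : SL(2, ℝ)) : Ug U g 0 = U (g • I) := by
  unfold Ug
  rw [GCP_cdi0]

/-- closeness of the values and of the first derivatives -/
theorem GCP_close {U U' : ℍ → ℝ} {s : ℝ} (hU : QU.CD ∞ U) (hU' : QU.CD ∞ U') (g : SL(2, ℝ))
    (h : ∀ n : ℕ, n ≤ 2 → ‖iteratedFDeriv ℝ n (fun w => Ug U g w - Ug U' g w) 0‖ ≤ s) :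
    |U' (g • I) - U (g • I)| ≤ s ∧ |n1 U' g - n1 U g| ≤ s ∧ |n2 U' g - n2 U g| ≤ s := by
  have d1 := PZE_diff U g 0 hU (by simp)
  have d2 := PZE_diff U' g 0 hU' (by simp)
  have h0 := h 0 (by norm_num)
  have h1 := h 1 (by norm_num)
  rw [norm_iteratedFDeriv_zero, GCP_Ug0, GCP_Ug0, Real.norm_eq_abs, abs_sub_comm] at h0
  rw [norm_iteratedFDeriv_one, fderiv_fun_sub d1 d2] at h1
  refine ⟨h0, ?_, ?_⟩
  · have h2 := (fderiv ℝ (Ug U g) 0 - fderiv ℝ (Ug U' g) 0).le_opNorm (1 : ℂ)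
    rw [ContinuousLinearMap.sub_apply, Real.norm_eq_abs, abs_sub_comm, norm_one, mul_one] at h2
    exact h2.trans h1
  · have h2 := (fderiv ℝ (Ug U g) 0 - fderiv ℝ (Ug U' g) 0).le_opNorm Complex.I
    rw [ContinuousLinearMap.sub_apply, Real.norm_eq_abs, abs_sub_comm, Complex.norm_I, mul_one] at h2
    exact h2.trans h1

theorem GCP_proof (h1 : GLP_stmt) : GCP_stmt := by
  intro k hk
  obtain ⟨K, hK, H⟩ := h1 k hk
  have hK0 : 0 < K := by linarith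
  obtain ⟨r, hr⟩ : ∃ r, r = √(6 * k) := ⟨_, rfl⟩
  have hr0 : 0 < r := by rw [hr]; exact Real.sqrt_pos.2 (by linarith)
  obtain ⟨R, hR⟩ : ∃ R, R = 1 / r + 1 := ⟨_, rfl⟩
  have hR1 : 1 ≤ R := by
    have : 0 < 1 / r := by positivity
    linarith
  have hRr : 1 / r ≤ R := by linarith
  have hRr' : 1 ≤ R * r := by
    have h2 : 1 / r * r = 1 := by field_simp
    nlinarith
  have hK2 : 1 ≤ K ^ 2 := one_le_pow₀ hK
  have hK3 : 1 ≤ K ^ 3 := one_le_pow₀ hK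
  have hKK : K ≤ K ^ 3 := by nlinarith
  have hKK2 : K ^ 2 ≤ K ^ 3 := by nlinarith
  obtain ⟨C, hC⟩ : ∃ C, C = 4 * K ^ 3 * R := ⟨_, rfl⟩
  have hC3 : 4 * K ^ 3 ≤ C := by
    rw [hC]
    nlinarith
  have hCR : K ^ 2 * R ≤ C := by
    rw [hC]
    nlinarith
  have hC1 : 1 ≤ C := by linarith
  have hC0 : 0 < C := by linarith
  refine ⟨C, hC1, ?_⟩
  intro Γ B U U' s E hP hP' hs0 hsk hE hclose g
  obtain ⟨a1, a2, a3, a4, -⟩ := H Γ B U hP g 1
  obtain ⟨b1, b2, b3, b4, -⟩ := H Γ B U' hP' g 1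
  obtain ⟨c1, c2, c3⟩ := GCP_close hP.smooth hP'.smooth g (hclose g)
  have k16 := hP.kpos.2
  have hlo' := hP'.lo (g • I)
  have hlo := hP.lo (g • I)
  have hE2 := abs_le.1 hE
  -- the two speeds
  obtain ⟨ρ, hρ⟩ : ∃ ρ, ρ = rho U 0 g := ⟨_, rfl⟩
  obtain ⟨ρ', hρ'⟩ : ∃ ρ', ρ' = rho U' E g := ⟨_, rfl⟩
  have e1 : ρ ^ 2 = U (g • I) := by
    rw [hρ]
    unfold rho
    rw [mul_zero, add_zero, Real.sq_sqrt (by linarith)]
  have e2 : ρ' ^ 2 = U' (g • I) + 2 * E := by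
    rw [hρ']
    unfold rho
    rw [Real.sq_sqrt (by linarith)]
  have e3 : (rho U' 0 g) ^ 2 = U' (g • I) := by
    unfold rho
    rw [mul_zero, add_zero, Real.sq_sqrt (by linarith)]
  have hρ'0 : 0 ≤ ρ' := by rw [hρ']; exact Real.sqrt_nonneg _
  rw [← hρ] at a1 a2
  have hKi : 0 < 1 / K := by positivity
  have hρ0 : 0 < ρ := lt_of_lt_of_le hKi a1
  have hρK : 1 ≤ ρ * K := (div_le_iff₀ hK0).1 a1
  have hrρ' : r ≤ ρ' := by
    rw [hr, hρ']
    unfold rho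
    exact Real.sqrt_le_sqrt (by linarith)
  have hρ'1 : 0 < ρ' := lt_of_lt_of_le hr0 hrρ'
  have hρ'2 : ρ' ≤ 2 * K := by
    have h2 : (rho U' 0 g) ^ 2 ≤ K ^ 2 := by
      have h3 : 0 ≤ rho U' 0 g := Real.sqrt_nonneg _
      exact pow_le_pow_left₀ h3 b2 2
    have h4 : ρ' ^ 2 ≤ (2 * K) ^ 2 := by
      rw [e2, ← e3]
      nlinarith
    exact le_of_sq_le_sq h4 (by linarith)
  have hdρ : |ρ' - ρ| ≤ 3 * K * s := by
    have h2 : (ρ' - ρ) * (ρ' + ρ) = (U' (g • I) - U (g • I)) + 2 * E := by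
      linear_combination e2 - e1
    have h3 : |ρ' - ρ| * (ρ' + ρ) ≤ 3 * s := by
      rw [← abs_of_pos (show 0 < ρ' + ρ by linarith), ← abs_mul, h2]
      refine (abs_add_le _ _).trans ?_
      have h4 : |2 * E| ≤ 2 * s := by
        rw [abs_mul, abs_two]
        linarith
      linarith
    have h5 : |ρ' - ρ| * ρ ≤ 3 * s := by nlinarith [abs_nonneg (ρ' - ρ)]
    calc |ρ' - ρ| = |ρ' - ρ| * 1 := (mul_one _).symm
      _ ≤ |ρ' - ρ| * (ρ * K) := mul_le_mul_of_nonneg_left hρK (abs_nonneg _)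
      _ = |ρ' - ρ| * ρ * K := by ring
      _ ≤ 3 * s * K := mul_le_mul_of_nonneg_right h5 hK0.le
      _ = 3 * K * s := by ring
  -- the angular speeds
  have k1 : |kap U 0 g| ≤ K ^ 2 := by
    unfold kap
    rw [← hρ, abs_div, abs_of_pos (show 0 < 2 * ρ by linarith), div_le_iff₀ (by linarith)]
    nlinarith
  have k2 : |kap U' E g| ≤ K * R := by
    unfold kap
    rw [← hρ', abs_div, abs_of_pos (show 0 < 2 * ρ' by linarith), div_le_iff₀ (by linarith)]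
    have h2 : 1 ≤ R * ρ' := by nlinarith
    nlinarith
  have k3 : |kap U' E g - kap U 0 g| ≤ 2 * K ^ 3 * R * s := by
    unfold kap
    rw [← hρ, ← hρ']
    have h2 : n2 U' g / (2 * ρ') - n2 U g / (2 * ρ) = ((n2 U' g - n2 U g) * ρ - n2 U g * (ρ' - ρ)) / (2 * ρ * ρ') := by
      field_simp
      ring
    rw [h2, abs_div, abs_of_pos (show 0 < 2 * ρ * ρ' by positivity), div_le_iff₀ (by positivity)]
    have h3 : |(n2 U' g - n2 U g) * ρ - n2 U g * (ρ' - ρ)| ≤ s * K + K * (3 * K * s) := by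
      refine (abs_sub _ _).trans ?_
      rw [abs_mul, abs_mul, abs_of_pos hρ0]
      exact add_le_add (mul_le_mul c3 a2 hρ0.le hs0) (mul_le_mul a4 hdρ (abs_nonneg _) hK0.le)
    refine h3.trans ?_
    have h4 : 1 ≤ (ρ * K) * (R * ρ') := by
      have h5 : 1 ≤ R * ρ' := by nlinarith
      exact one_le_mul_of_one_le_of_one_le hρK h5
    have h5 : 2 * K ^ 3 * R * s * (2 * ρ * ρ') = 4 * K ^ 2 * s * ((ρ * K) * (R * ρ')) := by ring
    rw [h5]
    have h6 : 0 ≤ 4 * K ^ 2 * s := by positivity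
    have h7 : 4 * K ^ 2 * s ≤ 4 * K ^ 2 * s * ((ρ * K) * (R * ρ')) := by nlinarith
    have h8 : s * K ≤ s * K ^ 2 := mul_le_mul_of_nonneg_left (by nlinarith) hs0
    nlinarith
  have hKR : K * R ≤ C := by nlinarith
  refine ⟨?_, ?_, ?_, ?_, ?_, ?_, ?_, ?_, ?_, ?_, ?_⟩
  · rw [← hρ]
    exact (one_div_le_one_div_of_le hK0 (by linarith)).trans a1
  · rw [← hρ]; linarith
  · rw [← hρ', div_le_iff₀ hC0]
    have h2 : R ≤ C := by nlinarith
    nlinarith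
  · rw [← hρ']; linarith
  · linarith
  · linarith
  · linarith
  · linarith
  · rw [← hρ, ← hρ']
    refine hdρ.trans (mul_le_mul_of_nonneg_right ?_ hs0)
    linarith
  · refine k3.trans (mul_le_mul_of_nonneg_right ?_ hs0)
    rw [hC]
    nlinarith [mul_pos (show 0 < K ^ 3 by positivity) (show 0 < R by linarith)]
  · refine c2.trans ?_
    nlinarith

end

end Pool.Agent.VNE
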