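import Pool.Agent.helper62.VN.SpecE
import Pool.Agent.helper27.VQE.ALP

/-! # Row vne:NAL (MP_07c750_an): the holonomies of a negatively curved flow are antilipschitz -/

set_option autoImplicit false

open scoped MatrixGroups ContDiff Topology UpperHalfPlane
open UpperHalfPlane MeasureTheory Filter Set

namespace Pool.Agent.VNE

open Pool.Agent.RS Pool.Agent.VQE

noncomputable section

theorem NAL_core (hNMB : VQE.NMB_stmt) (A B E : SL(2, ℝ)) (hA : nm A ≤ 1 / 100) (hB : nm B ≤ 1 / 100)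
    (hAB : ∀ i j, |B.1 i j - A.1 i j| ≤ nm E / 100) :
    nm E / 2 ≤ nm (A⁻¹ * E * B) ∧ nm (A⁻¹ * E * B) ≤ 2 * nm E := by
  obtain ⟨n0, -, ninv, -, -, -, -, -, -⟩ := hNMB
  have hn := n0 E
  have k1 : ALP_B (A⁻¹.1 - 1) (1 / 100) := by
    rw [← ALP_nm, ninv]
    exact hA
  have k2 : ALP_B (B.1 - 1) (1 / 100) := by
    rw [← ALP_nm]
    exact hB
  have k3 : ALP_B (B.1 - A.1) (nm E / 100) := fun i j => hAB i j
  have k4 := ALP_nmB E
  have hC : (A⁻¹).1 * A.1 = 1 := by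
    have := congrArg Subtype.val (inv_mul_cancel A)
    exact this
  have k5 := ALP_B_add (ALP_B_add (ALP_B_add (ALP_B_add (ALP_B_mul k1 k4) (ALP_B_mul k4 k2))
    (ALP_B_mul (ALP_B_mul k1 k4) k2)) k3) (ALP_B_mul k1 k3)
  rw [← ALP_id _ _ _ _ hC] at k5
  have k6 : (A⁻¹ * E * B).1 = (A⁻¹).1 * E.1 * B.1 := rfl
  rw [← k6] at k5
  obtain ⟨R, hR⟩ : ∃ R, R = A⁻¹ * E * B := ⟨_, rfl⟩
  rw [← hR] at k5 ⊢
  constructor
  · have k7 := ALP_B_sub (ALP_nmB R) k5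
    rw [sub_sub_cancel, ← ALP_nm] at k7
    nlinarith
  · have k7 := ALP_B_add k5 (ALP_nmB E)
    rw [sub_add_cancel, ← ALP_nm] at k7
    nlinarith

/-- the stable holonomies -/
theorem NAL_half (h1 : VQE.NMB_stmt) (h2 : NCH_stmt) (h3 : NTP_stmt) : ∀ K : ℝ, 1 ≤ K → ∃ C ε0 : ℝ, 1 ≤ C ∧ 0 < ε0 ∧
    ∀ (ε : ℝ) (X : Fd) (b : ℝ), 0 < ε → ε ≤ ε0 → HF K X → |b| ≤ ε / C → Continuous (SbN ε X b) ∧ ∀ g E : SL(2, ℝ),
      nm E / 2 ≤ nm ((SbN ε X b g)⁻¹ * SbN ε X b (g * E)) ∧ nm ((SbN ε X b g)⁻¹ * SbN ε X b (g * E)) ≤ 2 * nm E := by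
  intro K hK
  obtain ⟨C1, hC1, H1⟩ := h2 K hK
  obtain ⟨C2, ε2, hC2, hε2, H2⟩ := h3 K hK
  have p12 : 1 ≤ C1 * C2 := by nlinarith
  refine ⟨300 * (C1 * C2), min ε2 1, by nlinarith, lt_min hε2 one_pos, ?_⟩
  intro ε X b hε hεe hF hb
  have hC1' : 0 < C1 := by linarith
  have hC2' : 0 < C2 := by linarith
  have hεm := le_min_iff.1 hεe
  have hC0 : 0 < 300 * (C1 * C2) := by nlinarith
  have hb' : |b| * (300 * (C1 * C2)) ≤ ε := (le_div_iff₀ hC0).1 hb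
  have hb0 := abs_nonneg b
  have hbC : |b| * (C1 * C2) ≤ 1 / 300 := by nlinarith [hεm.2]
  have hb2 : |b| ≤ ε / C2 := by
    rw [le_div_iff₀ hC2']
    have h1 : |b| * C2 ≤ |b| * (300 * (C1 * C2)) := by
      refine mul_le_mul_of_nonneg_left ?_ hb0
      nlinarith
    linarith
  obtain ⟨s1, -, s3, -, s5⟩ := H2 ε X hε hεm.1 hF
  obtain ⟨-, -, -, c4, c5, -, -, -, -, -⟩ := H1 X hF
  refine ⟨?_, fun g E => ?_⟩
  · have h2 : Continuous (fun g : SL(2, ℝ) => ((g, b) : SL(2, ℝ) × ℝ)) := by fun_prop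
    exact s5.comp_continuous h2 fun g => ⟨mem_univ _, abs_le.1 hb2⟩
  · have h3 : (SbN ε X b g)⁻¹ * SbN ε X b (g * E) =
        (pj X g b (stn ε X g b))⁻¹ * E * pj X (g * E) b (stn ε X (g * E) b) := by
      unfold SbN
      group
    rw [h3]
    have c1 := (s1 g b hb2).2.1
    have c2 := (s1 (g * E) b hb2).2.1
    have c3 := s3 g E b hb2
    have hn := h1.1 E
    obtain ⟨w, hw⟩ : ∃ w, w = stn ε X g b := ⟨_, rfl⟩
    obtain ⟨w', hw'⟩ : ∃ w', w' = stn ε X (g * E) b := ⟨_, rfl⟩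
    rw [← hw] at c1 c3 ⊢
    rw [← hw'] at c2 c3 ⊢
    have q0 : |b| ≤ C2 * |b| := by nlinarith
    have q1 : |b| + |w| ≤ 2 * (C2 * |b|) := by linarith
    have q2 : |b| + |w'| ≤ 2 * (C2 * |b|) := by linarith
    have q3 : 2 * (C2 * |b|) ≤ 1 / C1 := by
      rw [le_div_iff₀ hC1']
      nlinarith
    have d1 := (c4 g b w (q1.trans q3)).1
    have d2 := (c4 (g * E) b w' (q2.trans q3)).1
    have d3 := (c5 g E b w b w' (q1.trans q3) (q2.trans q3)).1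
    have e1 : ∀ x : ℝ, x ≤ 2 * (C2 * |b|) → C1 * x ≤ 1 / 100 := by
      intro x hx
      have : C1 * x ≤ C1 * (2 * (C2 * |b|)) := mul_le_mul_of_nonneg_left hx hC1'.le
      nlinarith
    refine NAL_core h1 _ _ E (d1.trans (e1 _ q1)) (d2.trans (e1 _ q2)) fun i j => ?_
    refine (d3 i j).trans ?_
    rw [sub_self, abs_zero, zero_add, abs_sub_comm]
    have f1 : nm E * (|b| + |w|) ≤ nm E * (2 * (C2 * |b|)) := mul_le_mul_of_nonneg_left q1 hn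
    have f2 : |w' - w| + nm E * (|b| + |w|) ≤ 3 * (C2 * |b|) * nm E := by linarith
    have f3 : C1 * (|w' - w| + nm E * (|b| + |w|)) ≤ C1 * (3 * (C2 * |b|) * nm E) := mul_le_mul_of_nonneg_left f2 hC1'.le
    have f4 : C1 * (3 * (C2 * |b|) * nm E) = 3 * (|b| * (C1 * C2)) * nm E := by ring
    have f5 : 3 * (|b| * (C1 * C2)) * nm E ≤ 1 / 100 * nm E := by
      refine mul_le_mul_of_nonneg_right ?_ hn
      linarith
    linarith

theorem NAL_proof (h1 : VQE.NMB_stmt) (h2 : NCH_stmt) (h3 : NTP_stmt) (h4 : NRV_stmt) : NAL_stmt := by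
  intro K hK
  obtain ⟨C, ε0, hC, hε0, H⟩ := NAL_half h1 h2 h3 K hK
  refine ⟨C, ε0, hC, hε0, ?_⟩
  intro ε X b hε hεe hF hb
  obtain ⟨a1, a2⟩ := H ε X b hε hεe hF hb
  obtain ⟨r1, -, r3⟩ := h4 K X hK hF
  obtain ⟨b1, b2⟩ := H ε (rX X) (-b) hε hεe r1 (by rwa [abs_neg])
  obtain ⟨-, -, -, nJ, nJ', -, -, -, -⟩ := h1
  have hU : UbN ε X b = fun g => SbN ε (rX X) (-b) (g * kJ) * kJ⁻¹ := funext fun g => r3 ε b g
  refine ⟨a1, ?_, fun g E _ => ?_⟩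
  · rw [hU]
    exact (b1.comp (continuous_mul_const kJ)).mul continuous_const
  · refine ⟨(a2 g E).1, (a2 g E).2, ?_⟩
    have h4 := b2 (g * kJ) (kJ⁻¹ * E * kJ)
    rw [nJ', show g * kJ * (kJ⁻¹ * E * kJ) = g * E * kJ by group] at h4
    have h5 : (UbN ε X b g)⁻¹ * UbN ε X b (g * E) =
        kJ * ((SbN ε (rX X) (-b) (g * kJ))⁻¹ * SbN ε (rX X) (-b) (g * E * kJ)) * kJ⁻¹ := by
      rw [r3, r3]
      group
    rw [h5, nJ]
    exact h4

end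

end Pool.Agent.VNE
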